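import Pool.Agent.H32.RK.TargetsB
import Pool.Agent.H49.RQ.FJB

set_option autoImplicit false

open Finset NumberField Pool.Agent.H32.RQ Pool.Agent.H32.RK

namespace Pool.Agent.H25.RK

section lemmas

variable {K : Type} [Field K] [NumberField K] {ι : Type} [Fintype ι]
  (ω : Module.Basis ι ℤ (𝓞 K)) (Q : ℕ) [NeZero Q]

omit [NumberField K] [NeZero Q] in
theorem lf_add (j k : ι → ZMod Q) (ν : 𝓞 K) (l : ι) :
    lf ω Q (j + k) ν l = lf ω Q j ν l + lf ω Q k ν l := by
  unfold lf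
  rw [← Finset.sum_add_distrib]
  refine Finset.sum_congr rfl fun m _ => ?_
  rw [Pi.add_apply, add_mul]

omit [NumberField K] [NeZero Q] in
theorem lf_mul (k : ι → ZMod Q) (u ν : 𝓞 K) (l : ι) :
    lf ω Q k (u * ν) l = lf ω Q (fun r => lf ω Q k u r) ν l := by
  have key : ∀ m, ω.repr (u * ν * ω l) m = ∑ r, ω.repr (ν * ω l) r * ω.repr (u * ω r) m := by
    intro m
    have h1 : u * ν * ω l = ∑ r, ω.repr (ν * ω l) r • (u * ω r) := by
      calc u * ν * ω l = u * (ν * ω l) := by ring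
        _ = u * ∑ r, ω.repr (ν * ω l) r • ω r := by rw [ω.sum_repr]
        _ = ∑ r, ω.repr (ν * ω l) r • (u * ω r) := by
            rw [Finset.mul_sum]
            refine Finset.sum_congr rfl fun r _ => ?_
            rw [mul_smul_comm]
    rw [h1, map_sum, Finsupp.finsetSum_apply]
    refine Finset.sum_congr rfl fun r _ => ?_
    rw [map_smul, Finsupp.smul_apply, smul_eq_mul]
  unfold lf
  calc ∑ m, k m * ((ω.repr (u * ν * ω l) m : ℤ) : ZMod Q)
      = ∑ m, ∑ r, k m * ((ω.repr (u * ω r) m : ℤ) : ZMod Q) *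
          ((ω.repr (ν * ω l) r : ℤ) : ZMod Q) := by
        refine Finset.sum_congr rfl fun m _ => ?_
        rw [key m]
        push_cast
        rw [Finset.mul_sum]
        refine Finset.sum_congr rfl fun r _ => ?_
        ring
    _ = ∑ r, ∑ m, k m * ((ω.repr (u * ω r) m : ℤ) : ZMod Q) *
          ((ω.repr (ν * ω l) r : ℤ) : ZMod Q) := Finset.sum_comm
    _ = _ := by
        refine Finset.sum_congr rfl fun r _ => ?_
        rw [Finset.sum_mul]

end lemmas

theorem pf_DIA (K : Type) [Field K] [NumberField K] (hDIB : T_DIB K) : T_DIA K := by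
  classical
  intro ι _ _ ω s hs
  obtain ⟨C, hC1, hC⟩ := hDIB ι ω s hs
  refine ⟨C, hC1, ?_⟩
  intro b A J Q _ c x y u hb hA hc hQ hbJ hx hxy
  have hb8 : 1 ≤ b ^ 8 := Nat.one_le_pow _ _ hb
  have hJ : 1 ≤ J := hb8.trans hbJ
  have hJ0 : (0 : ℝ) < J := by exact_mod_cast hJ
  have hnu : ∀ p : Mon s, nu y p = u ^ 2 * nu x p := by
    intro p
    unfold nu
    rw [hxy, hxy]
    ring
  obtain ⟨-, htri, -⟩ := Pool.Agent.H49.RQ.pf_FJB Q J hJ
  set g : (ι → ZMod Q) → ℝ := fun t => ∏ p : Mon s, ∏ l, tri Q J (lf ω Q t (nu x p) l) with hg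
  have hrr : ∀ j k, rr ω Q J x y j k = g ((fun r => lf ω Q k (u ^ 2) r) + j) := by
    intro j k
    unfold H32.RK.rr
    rw [hg]
    refine Finset.prod_congr rfl fun p _ => Finset.prod_congr rfl fun l _ => ?_
    rw [hnu p, lf_mul, lf_add, add_comm]
  have hsum : ∑ j : ι → ZMod Q, ∑ k : ι → ZMod Q, rr ω Q J x y j k =
      (Q : ℝ) ^ Fintype.card ι * ∑ t, g t := by
    rw [Finset.sum_comm]
    have h1 : ∀ k : ι → ZMod Q, ∑ j : ι → ZMod Q, rr ω Q J x y j k = ∑ t, g t := by
      intro k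
      rw [← Equiv.sum_comp (Equiv.addLeft (fun r => lf ω Q k (u ^ 2) r)) g]
      exact Finset.sum_congr rfl fun j _ => hrr j k
    rw [Finset.sum_congr rfl fun k _ => h1 k, Finset.sum_const, nsmul_eq_mul, Finset.card_univ,
      Fintype.card_fun, ZMod.card]
    push_cast
    ring
  set Z : Finset (ι → ZMod Q) := Finset.univ.filter fun t => ∀ (p : Mon s) (l : ι),
    |(lf ω Q t (nu x p) l).valMinAbs| < (J : ℤ) with hZ
  have hgle : ∑ t, g t ≤ (Z.card : ℝ) := by
    have h1 : ∀ t, g t ≤ if (∀ (p : Mon s) (l : ι),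
        |(lf ω Q t (nu x p) l).valMinAbs| < (J : ℤ)) then 1 else 0 := by
      intro t
      split_ifs with h
      · exact Finset.prod_le_one (fun p _ => Finset.prod_nonneg fun l _ => (htri _).1)
          (fun p _ => Finset.prod_le_one (fun l _ => (htri _).1) (fun l _ => (htri _).2))
      · push Not at h
        obtain ⟨p, l, hp⟩ := h
        refine le_of_eq (Finset.prod_eq_zero (mem_univ p) (Finset.prod_eq_zero (mem_univ l) ?_))
        unfold tri
        refine max_eq_left ?_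
        rw [sub_nonpos, le_div_iff₀ hJ0, one_mul]
        exact_mod_cast hp
    refine (Finset.sum_le_sum fun t _ => h1 t).trans ?_
    rw [Finset.sum_boole]
  have hcnt := hC b A J Q c x Z hb hA hc hQ hbJ hx (fun t ht => (mem_filter.mp ht).2)
  have hcard : Fintype.card ι = dg K := by
    rw [← Module.finrank_eq_card_basis ω]
    exact NumberField.RingOfIntegers.rank K
  have hQ0 : (0 : ℝ) < Q := by exact_mod_cast Nat.pos_of_ne_zero (NeZero.ne Q)
  have hQ' : (Q : ℝ) = 2 * A * J := by exact_mod_cast hQ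
  unfold H32.RK.pp
  rw [hsum, div_mul_eq_mul_div, div_le_iff₀ (by positivity), hcard]
  calc (Q : ℝ) ^ dg K * (∑ t, g t) * (2 * A * (b : ℝ) ^ 8) ^ dg K =
      (Q : ℝ) ^ dg K * (2 * A : ℝ) ^ dg K * ((∑ t, g t) * (b : ℝ) ^ (8 * dg K)) := by
        rw [mul_pow (2 * (A : ℝ)), pow_mul]
        ring
    _ ≤ (Q : ℝ) ^ dg K * (2 * A : ℝ) ^ dg K * (C * (J : ℝ) ^ dg K) := by
        refine mul_le_mul_of_nonneg_left ?_ (by positivity)
        refine le_trans ?_ hcnt
        gcongr
    _ = C * ((Q : ℝ) ^ dg K * ((2 * A : ℝ) * J) ^ dg K) := by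
        rw [mul_pow (2 * (A : ℝ))]
        ring
    _ = C * (Q : ℝ) ^ (2 * dg K) := by
        rw [← hQ', ← pow_add, two_mul (dg K)]

end Pool.Agent.H25.RK

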